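import Pool.Agent.Lib.MP_913206_gt.Main

set_option autoImplicit false

open Set Filter Topology Pointwise

namespace Pool.Agent.Results.MP_913206_gt.AnalyticMengerHurewicz

open Pool.Agent.Lib.MP_913206_gt

universe u

/-- Every analytic topological group satisfying `S_fin(𝒪_nbd, 𝒪)` (Menger-bounded) also satisfies
`S_1(Ω_nbd, Γ)` (Hurewicz-bounded). -/
theorem result (G : Type u) [Group G] [TopologicalSpace G] [IsTopologicalGroup G] [T2Space G]
    (hG : IsAnalyticSpace G) (hM : Sfin (Onbd G) (OpenCovers G)) :
    S1 (Omeganbd G) (GammaCovers G) :=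
  main G hG hM

end Pool.Agent.Results.MP_913206_gt.AnalyticMengerHurewicz
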